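import Pool.Agent.Helper87.Cov.Circle

/-!
# Lower bound for the Hankel determinants at the centre
-/

open MeasureTheory Set Filter Topology Complex Metric Polynomial

namespace Pool.Agent.Helper87.Cov

theorem centre_lower {r₀ r : ℝ} (h0 : 0 < r₀) (h0r : r₀ < r) (m : ℕ) (z : Fin m → ℂ)
    (hinj : Function.Injective z) (hz : ∀ j, r₀ < ‖z j‖ ∧ ‖z j‖ < r) {F N : ℂ → ℂ}
    (hF : ContinuousOn F (sphere 0 r₀)) (hN : ∀ x ∈ closedBall (0 : ℂ) r, DifferentiableAt ℂ N x)
    (hN0 : ∀ j, N (z j) ≠ 0)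
    (hEq : ∀ x ∈ sphere (0 : ℂ) r₀, F x * ∏ j, (1 - x / z j) = N x) :
    ∃ c : ℝ, 0 < c ∧ ∀ᶠ k : ℕ in atTop, c ≤ ‖(hkM r₀ m k F).det‖ * ∏ j, ‖z j‖ ^ k := by
  have hr : 0 < r := h0.trans h0r
  have hz0 : ∀ j, z j ≠ 0 := by
    intro j h
    have := (hz j).1
    rw [h, norm_zero] at this
    linarith
  have hfac : ∀ (j : Fin m) (x : ℂ), x ≠ z j → 1 - x / z j ≠ 0 := by
    intro j x hx h
    apply hx
    have := hz0 j
    field_simp at h
    linear_combination -h
  have hsph : ∀ (j : Fin m), ∀ x ∈ closedBall (0 : ℂ) r₀, x ≠ z j := by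
    rintro j x hx rfl
    have := (hz j).1
    rw [mem_closedBall_zero_iff] at hx
    linarith
  set P : Fin m → ℂ[X] := fun j => ∏ i ∈ Finset.univ.erase j, (1 - C (z i)⁻¹ * X) with hP
  have hPev : ∀ j x, (P j).eval x = ∏ i ∈ Finset.univ.erase j, (1 - x / z i) := by
    intro j x
    simp only [hP, eval_prod]
    apply Finset.prod_congr rfl
    intro i _
    simp [div_eq_inv_mul]
  have hPdeg : ∀ j, (P j).natDegree < m := by
    intro j
    have h1 : (P j).natDegree ≤ ∑ i ∈ Finset.univ.erase j, 1 := by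
      refine (natDegree_prod_le _ _).trans (Finset.sum_le_sum ?_)
      intro i _
      compute_degree
    rw [Finset.sum_const, Finset.card_erase_of_mem (Finset.mem_univ _), Finset.card_univ,
      Fintype.card_fin] at h1
    have := j.2
    simp only [smul_eq_mul, mul_one] at h1
    omega
  have hPmul : ∀ j x, (1 - x / z j) * (P j).eval x = ∏ i, (1 - x / z i) := by
    intro j x
    rw [hPev]
    exact Finset.mul_prod_erase Finset.univ (fun i => 1 - x / z i) (Finset.mem_univ j)
  have hPz : ∀ j, (P j).eval (z j) ≠ 0 := by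
    intro j
    rw [hPev, Finset.prod_ne_zero_iff]
    intro i hi
    apply hfac
    intro h
    exact (Finset.ne_of_mem_erase hi) (hinj h).symm
  have hPdiff : ∀ j, Differentiable ℂ (fun x => (P j).eval x) := fun j => (P j).differentiable
  obtain ⟨c₀, hc₀⟩ := det_two_sided h0 m hF P hPdeg
  set g : Fin m → ℂ → ℂ := fun j x => N x * (P j).eval x with hg
  have hgd : ∀ j, ∀ x ∈ closedBall (0 : ℂ) r, DifferentiableAt ℂ (g j) x := fun j x hx =>
    (hN x hx).mul (hPdiff j x)
  have hgz : ∀ j, g j (z j) ≠ 0 := fun j => mul_ne_zero (hN0 j) (hPz j)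
  -- off-diagonal entries
  have hcont : ∀ j l : Fin m, ContinuousOn (fun x => (P j).eval x * (P l).eval x * F x) (sphere 0 r₀) := by
    intro j l
    exact ContinuousOn.mul (by fun_prop) hF
  have hoff : ∀ j l : Fin m, j ≠ l → ∃ C : ℝ, 0 ≤ C ∧ ∀ n,
      ‖cf r₀ n (fun x => (P j).eval x * (P l).eval x * F x)‖ ≤ C * r⁻¹ ^ n := by
    intro j l hjl
    apply cf_bound h0 hr (hcont j l)
    intro _
    refine ⟨fun x => N x * ∏ i ∈ (Finset.univ.erase l).erase j, (1 - x / z i), ?_, ?_⟩
    · intro x hx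
      have h1 := hEq x hx
      have h2 : (P l).eval x = (1 - x / z j) * ∏ i ∈ (Finset.univ.erase l).erase j, (1 - x / z i) := by
        rw [hPev]
        exact (Finset.mul_prod_erase (Finset.univ.erase l) (fun i => 1 - x / z i)
          (Finset.mem_erase.2 ⟨hjl, Finset.mem_univ j⟩)).symm
      have h3 := hPmul j x
      simp only
      rw [← h1, ← h3, h2]
      ring
    · intro x hx
      apply DifferentiableAt.mul (hN x hx)
      fun_prop
  have hdiag : ∀ j : Fin m, ∃ C : ℝ, 0 ≤ C ∧ ∀ n,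
      ‖cf r₀ n (fun x => (P j).eval x * (P j).eval x * F x) - g j (z j) * (z j)⁻¹ ^ n‖ ≤ C * r⁻¹ ^ n := by
    intro j
    have hds : ∀ x ∈ closedBall (0 : ℂ) r, DifferentiableAt ℂ (fun x => -z j * dslope (g j) (z j) x) x := by
      intro x hx
      apply DifferentiableAt.const_mul
      by_cases hxz : x = z j
      · rw [hxz]
        have hmem : ball (0 : ℂ) r ∈ 𝓝 (z j) := isOpen_ball.mem_nhds (by
          rw [mem_ball_zero_iff]
          exact (hz j).2)
        have : DifferentiableOn ℂ (dslope (g j) (z j)) (ball 0 r) := by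
          rw [Complex.differentiableOn_dslope hmem]
          intro y hy
          exact (hgd j y (ball_subset_closedBall hy)).differentiableWithinAt
        exact this.differentiableAt hmem
      · exact (differentiableAt_dslope_of_ne hxz).2 (hgd j x hx)
    have hds' : ContinuousOn (fun x => -z j * dslope (g j) (z j) x) (sphere 0 r₀) := fun x hx =>
      (hds x (closedBall_subset_closedBall h0r.le (sphere_subset_closedBall hx))).continuousAt.continuousWithinAt
    obtain ⟨C, hC0, hC⟩ := cf_bound h0 hr hds' (fun _ => ⟨_, fun _ _ => rfl, hds⟩)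
    refine ⟨C, hC0, ?_⟩
    intro n
    have h1 : cf r₀ n (fun x => (P j).eval x * (P j).eval x * F x) =
        cf r₀ n (fun x => g j (z j) * (1 - x / z j)⁻¹ + -z j * dslope (g j) (z j) x) := by
      apply cf_congr h0.le
      intro x hx
      have hxz : x ≠ z j := hsph j x (sphere_subset_closedBall hx)
      have h2 := hfac j x hxz
      have h3 := hPmul j x
      have h4 := hEq x hx
      have h5 : (x - z j) * dslope (g j) (z j) x = g j x - g j (z j) := by
        have := sub_smul_dslope (g j) (z j) x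
        rwa [smul_eq_mul] at this
      have h6 : (1 - x / z j) * (-z j) = x - z j := by
        have := hz0 j
        field_simp
        ring
      simp only
      have h7 : (1 - x / z j) * ((P j).eval x * (P j).eval x * F x) = g j x := by
        simp only [hg]
        rw [← h4, ← h3]
        ring
      have h8 : (1 - x / z j) * (g j (z j) * (1 - x / z j)⁻¹ + -z j * dslope (g j) (z j) x) = g j x := by
        have : (1 - x / z j) * (g j (z j) * (1 - x / z j)⁻¹) = g j (z j) := by
          field_simp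
        linear_combination this + (dslope (g j) (z j) x) * h6 + h5
      exact mul_left_cancel₀ h2 (h7.trans h8.symm)
    have hpc : ContinuousOn (fun x => g j (z j) * (1 - x / z j)⁻¹) (sphere 0 r₀) := by
      apply ContinuousOn.mul continuousOn_const
      apply ContinuousOn.inv₀ (by fun_prop)
      exact fun x hx => hfac j x (hsph j x (sphere_subset_closedBall hx))
    rw [h1, cf_add h0 n hpc hds', cf_const_mul, cf_pole h0 (hz j).1, add_sub_cancel_left]
    exact hC n
  -- the scaled matrices converge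
  set NM : ℕ → Matrix (Fin m) (Fin m) ℂ := fun k => Matrix.of fun j l : Fin m =>
    (z j) ^ (k + 2 * (m - 1)) * (Matrix.of fun i l : Fin m => cf r₀ (k + 2 * (m - 1))
        (fun z => (P i).eval z * (P l).eval z * F z)) j l with hNM
  have hshift : Tendsto (fun k : ℕ => k + 2 * (m - 1)) atTop atTop := tendsto_add_atTop_nat _
  have hgeo : ∀ (j : Fin m) (C : ℝ), Tendsto (fun k : ℕ => C * (‖z j‖ * r⁻¹) ^ (k + 2 * (m - 1))) atTop (𝓝 0) := by
    intro j C
    have h1 : ‖z j‖ * r⁻¹ < 1 := by
      rw [← div_eq_mul_inv, div_lt_one hr]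
      exact (hz j).2
    have := ((tendsto_pow_atTop_nhds_zero_of_lt_one (by positivity) h1).comp hshift).const_mul C
    rw [mul_zero] at this
    exact this
  have hconv : Tendsto NM atTop (𝓝 (Matrix.diagonal fun j => g j (z j))) := by
    refine tendsto_pi_nhds.2 fun j => tendsto_pi_nhds.2 fun l => ?_
    by_cases hjl : j = l
    · subst hjl
      rw [Matrix.diagonal_apply_eq]
      obtain ⟨C, hC0, hC⟩ := hdiag j
      rw [tendsto_iff_norm_sub_tendsto_zero]
      apply squeeze_zero (fun _ => norm_nonneg _) _ (hgeo j C)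
      intro k
      have := hC (k + 2 * (m - 1))
      simp only [hNM, Matrix.of_apply]
      have h1 : (z j) ^ (k + 2 * (m - 1)) * cf r₀ (k + 2 * (m - 1)) (fun z => (P j).eval z * (P j).eval z * F z)
          - g j (z j) = (z j) ^ (k + 2 * (m - 1)) * (cf r₀ (k + 2 * (m - 1)) (fun z => (P j).eval z * (P j).eval z * F z)
          - g j (z j) * (z j)⁻¹ ^ (k + 2 * (m - 1))) := by
        have h2 : (z j) ^ (k + 2 * (m - 1)) * (z j)⁻¹ ^ (k + 2 * (m - 1)) = 1 := by
          rw [← mul_pow, mul_inv_cancel₀ (hz0 j), one_pow]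
        linear_combination (g j (z j)) * h2
      rw [h1, norm_mul, norm_pow, mul_pow]
      calc ‖z j‖ ^ (k + 2 * (m - 1)) * _ ≤ ‖z j‖ ^ (k + 2 * (m - 1)) * (C * r⁻¹ ^ (k + 2 * (m - 1))) :=
            mul_le_mul_of_nonneg_left this (by positivity)
        _ = _ := by ring
    · rw [Matrix.diagonal_apply_ne _ hjl]
      obtain ⟨C, hC0, hC⟩ := hoff j l hjl
      rw [tendsto_zero_iff_norm_tendsto_zero]
      apply squeeze_zero (fun _ => norm_nonneg _) _ (hgeo j C)
      intro k
      have := hC (k + 2 * (m - 1))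
      simp only [hNM, Matrix.of_apply]
      rw [norm_mul, norm_pow, mul_pow]
      calc ‖z j‖ ^ (k + 2 * (m - 1)) * _ ≤ ‖z j‖ ^ (k + 2 * (m - 1)) * (C * r⁻¹ ^ (k + 2 * (m - 1))) :=
            mul_le_mul_of_nonneg_left this (by positivity)
        _ = _ := by ring
  have hdet : Tendsto (fun k => ‖(NM k).det‖) atTop (𝓝 ‖∏ j, g j (z j)‖) := by
    have h1 : Continuous (fun M : Matrix (Fin m) (Fin m) ℂ => ‖M.det‖) :=
      (continuous_id.matrix_det).norm
    have := (h1.tendsto (Matrix.diagonal fun j => g j (z j))).comp hconv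
    rw [Matrix.det_diagonal] at this
    exact this
  have hpos : 0 < ‖∏ j, g j (z j)‖ := by
    rw [norm_pos_iff, Finset.prod_ne_zero_iff]
    exact fun j _ => hgz j
  have hexp : ∀ k, ‖(NM k).det‖ = (‖(hkM r₀ m k F).det‖ * ∏ j, ‖z j‖ ^ k) *
      (‖c₀‖ * ∏ j, ‖z j‖ ^ (2 * (m - 1))) := by
    intro k
    simp only [hNM]
    rw [Matrix.det_mul_column, ← hc₀ k, norm_mul, norm_mul, norm_prod]
    have : ∏ j, ‖(z j) ^ (k + 2 * (m - 1))‖ = (∏ j, ‖z j‖ ^ k) * ∏ j, ‖z j‖ ^ (2 * (m - 1)) := by
      rw [← Finset.prod_mul_distrib]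
      apply Finset.prod_congr rfl
      intro j _
      rw [norm_pow, pow_add]
    rw [this]
    ring
  have hev := hdet.eventually (lt_mem_nhds (show ‖∏ j, g j (z j)‖ / 2 < ‖∏ j, g j (z j)‖ by linarith))
  have hK0 : 0 < ‖c₀‖ * ∏ j, ‖z j‖ ^ (2 * (m - 1)) := by
    have hge : 0 ≤ ‖c₀‖ * ∏ j, ‖z j‖ ^ (2 * (m - 1)) := by positivity
    rcases hge.lt_or_eq with h | h
    · exact h
    · exfalso
      obtain ⟨k, hk⟩ := hev.exists
      rw [hexp k, ← h, mul_zero] at hk
      linarith
  refine ⟨‖∏ j, g j (z j)‖ / 2 / (‖c₀‖ * ∏ j, ‖z j‖ ^ (2 * (m - 1))), by positivity, ?_⟩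
  filter_upwards [hev] with k hk
  rw [hexp k] at hk
  rw [div_le_iff₀ hK0]
  exact hk.le

end Pool.Agent.Helper87.Cov
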