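import Mathlib

/-!
# Splitting off the zeros of an entire function in a disc
-/

open MeasureTheory Set Filter Topology Complex Metric

namespace Pool.Agent.Helper87.Cov

/-- the product `∏ (1 - z / s)` -/
noncomputable def bl (S : Multiset ℂ) (z : ℂ) : ℂ := (S.map (fun s => 1 - z / s)).prod

theorem bl_zero (S : Multiset ℂ) : bl S 0 = 1 := by
  unfold bl
  simp

theorem bl_cons (s : ℂ) (S : Multiset ℂ) (z : ℂ) : bl (s ::ₘ S) z = (1 - z / s) * bl S z := by
  unfold bl
  simp

theorem bl_add (S T : Multiset ℂ) (z : ℂ) : bl (S + T) z = bl S z * bl T z := by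
  unfold bl
  simp

theorem bl_differentiable (S : Multiset ℂ) : Differentiable ℂ (bl S) := by
  induction S using Multiset.induction_on with
  | empty =>
    have : bl 0 = fun _ => 1 := by
      funext z
      unfold bl
      simp
    rw [this]
    exact differentiable_const _
  | cons s S ih =>
    have : bl (s ::ₘ S) = fun z => (1 - z / s) * bl S z := by
      funext z
      exact bl_cons s S z
    rw [this]
    exact Differentiable.mul (by fun_prop) ih

theorem bl_lower {ρ : ℝ} (hρ : 0 < ρ) (S : Multiset ℂ) (hS : ∀ s ∈ S, s ≠ 0 ∧ ‖s‖ ≤ ρ) {z : ℂ}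
    (hz : ‖z‖ = 3 * ρ) : (2 : ℝ) ^ (Multiset.card S) ≤ ‖bl S z‖ := by
  induction S using Multiset.induction_on with
  | empty => simp [bl]
  | cons s S ih =>
    rw [bl_cons, norm_mul, Multiset.card_cons, pow_succ, mul_comm]
    have hs := hS s (Multiset.mem_cons_self s S)
    have hs0 : 0 < ‖s‖ := norm_pos_iff.2 hs.1
    apply mul_le_mul _ (ih (fun t ht => hS t (Multiset.mem_cons_of_mem ht))) (by positivity)
      (norm_nonneg _)
    have h1 : ‖z / s‖ - ‖(1 : ℂ)‖ ≤ ‖z / s - 1‖ := norm_sub_norm_le _ _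
    rw [norm_sub_rev] at h1
    have h2 : 3 ≤ ‖z / s‖ := by
      rw [norm_div, hz, le_div_iff₀ hs0]
      nlinarith [hs.2]
    rw [norm_one] at h1
    linarith

theorem exists_factor {f : ℂ → ℂ} (hf : Differentiable ℂ f) (h0 : f 0 ≠ 0) {ρ : ℝ} (hρ : 0 < ρ) :
    ∃ (S : Multiset ℂ) (U : ℂ → ℂ), Differentiable ℂ U ∧ (∀ z, f z = bl S z * U z) ∧
      ∀ z ∈ closedBall (0 : ℂ) ρ, U z ≠ 0 := by
  by_contra hcon
  push Not at hcon
  have hP : ∀ n : ℕ, ∃ (S : Multiset ℂ) (U : ℂ → ℂ), Multiset.card S = n ∧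
      (∀ s ∈ S, s ≠ 0 ∧ ‖s‖ ≤ ρ) ∧ Differentiable ℂ U ∧ (∀ z, f z = bl S z * U z) := by
    intro n
    induction n with
    | zero =>
      refine ⟨0, f, by simp, by simp, hf, ?_⟩
      intro z
      simp [bl]
    | succ n ih =>
      obtain ⟨S, U, hcard, hS, hU, hfU⟩ := ih
      obtain ⟨s, hs, hUs⟩ := hcon S U hU hfU
      have hs0 : s ≠ 0 := by
        rintro rfl
        apply h0
        rw [hfU 0, hUs, mul_zero]
      refine ⟨s ::ₘ S, fun z => -s * dslope U s z, by simp [hcard], ?_, ?_, ?_⟩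
      · intro t ht
        rcases Multiset.mem_cons.1 ht with rfl | ht
        · exact ⟨hs0, by simpa using hs⟩
        · exact hS t ht
      · apply Differentiable.const_mul
        rw [← differentiableOn_univ]
        exact (Complex.differentiableOn_dslope (by simp)).2 hU.differentiableOn
      · intro z
        rw [hfU z, bl_cons]
        have h1 : (z - s) * dslope U s z = U z := by
          have := sub_smul_dslope U s z
          rw [hUs, sub_zero, smul_eq_mul] at this
          exact this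
        have h2 : (1 - z / s) * (-s) = z - s := by
          field_simp
          ring
        linear_combination (-bl S z) * h1 - (bl S z * dslope U s z) * h2
  -- bound
  obtain ⟨M, hM⟩ := (isCompact_sphere (0 : ℂ) (3 * ρ)).exists_bound_of_continuousOn
    hf.continuous.continuousOn
  have hbound : ∀ n : ℕ, ‖f 0‖ ≤ M / 2 ^ n := by
    intro n
    obtain ⟨S, U, hcard, hS, hU, hfU⟩ := hP n
    have hUf : ‖f 0‖ = ‖U 0‖ := by
      rw [hfU 0, bl_zero, one_mul]
    rw [hUf]
    apply Complex.norm_le_of_forall_mem_frontier_norm_le (U := ball (0 : ℂ) (3 * ρ)) isBounded_ball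
      hU.diffContOnCl
    · intro z hz
      rw [frontier_ball _ (by positivity)] at hz
      have h1 := bl_lower hρ S hS (z := z) (by simpa using hz)
      have h2 := hM z hz
      rw [hfU z, norm_mul] at h2
      rw [hcard] at h1
      rw [le_div_iff₀ (by positivity)]
      nlinarith [norm_nonneg (U z)]
    · exact subset_closure (mem_ball_self (by positivity))
  have hlim : Tendsto (fun n : ℕ => M / 2 ^ n) atTop (𝓝 0) := by
    have := (tendsto_pow_atTop_nhds_zero_of_lt_one (r := (1 / 2 : ℝ)) (by norm_num) (by norm_num)).const_mul M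
    simpa [div_eq_mul_inv] using this
  have : ‖f 0‖ ≤ 0 := ge_of_tendsto' hlim hbound
  exact h0 (norm_le_zero_iff.1 this)

/-- multiplier killing all zeros but the chosen ones -/
theorem exists_multiplier {f : ℂ → ℂ} (hf : Differentiable ℂ f) (h0 : f 0 ≠ 0) {ρ : ℝ} (hρ : 0 < ρ)
    (Z : Finset ℂ) (hZ : ∀ z ∈ Z, ‖z‖ ≤ ρ ∧ f z = 0) :
    ∃ (D V : ℂ → ℂ), Differentiable ℂ D ∧
      (∀ z ∈ closedBall (0 : ℂ) ρ, DifferentiableAt ℂ V z ∧ V z ≠ 0) ∧
      ∀ z ∈ closedBall (0 : ℂ) ρ, D z * ∏ w ∈ Z, (1 - z / w) = f z * V z := by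
  obtain ⟨S, U, hU, hfU, hU0⟩ := exists_factor hf h0 hρ
  have hle : Z.val ≤ S := by
    rw [Multiset.le_iff_subset Z.nodup]
    intro w hw
    have hw' := hZ w hw
    have hw0 : w ≠ 0 := by
      rintro rfl
      exact h0 hw'.2
    have h1 : bl S w = 0 := by
      have := hfU w
      rw [hw'.2] at this
      rcases mul_eq_zero.1 this.symm with h | h
      · exact h
      · exact absurd h (hU0 w (by simpa using hw'.1))
    unfold bl at h1
    rw [Multiset.prod_eq_zero_iff, Multiset.mem_map] at h1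
    obtain ⟨s, hs, hs1⟩ := h1
    have hs0 : s ≠ 0 := by
      rintro rfl
      simp at hs1
    have : w = s := by
      field_simp at hs1
      linear_combination -hs1
    rw [this]
    exact hs
  obtain ⟨T, rfl⟩ := Multiset.le_iff_exists_add.1 hle
  refine ⟨bl T, fun z => (U z)⁻¹, bl_differentiable T, ?_, ?_⟩
  · intro z hz
    exact ⟨DifferentiableAt.fun_inv (hU z) (hU0 z hz), inv_ne_zero (hU0 z hz)⟩
  · intro z hz
    have h1 : f z * (U z)⁻¹ = bl (Z.val + T) z := by
      rw [hfU z, mul_assoc, mul_inv_cancel₀ (hU0 z hz), mul_one]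
    simp only
    rw [h1, bl_add, mul_comm]
    rfl

end Pool.Agent.Helper87.Cov
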