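import Mathlib

/-!
# Sub-mean value inequality with `log⁺` on the unit circle
-/

open MeasureTheory Set Filter Topology Complex Metric

namespace Pool.Agent.Helper87.Cov

theorem log_norm_le_circleAverage {f : ℂ → ℂ} (hf : AnalyticOnNhd ℂ f (closedBall 0 1)) (h0 : f 0 ≠ 0) :
    Real.log ‖f 0‖ ≤ Real.circleAverage (fun z => Real.log ‖f z‖) 0 1 := by
  have h1 : AnalyticOnNhd ℂ f (closedBall 0 |(1 : ℝ)|) := by rwa [abs_one]
  rw [h1.circleAverage_log_norm one_ne_zero h0]
  have : 0 ≤ ∑ᶠ u, (MeromorphicOn.divisor f (closedBall 0 |(1 : ℝ)|) u : ℝ) * Real.log (1 * ‖0 - u‖⁻¹) := by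
    apply finsum_nonneg
    intro u
    by_cases hu : u ∈ closedBall (0 : ℂ) |(1 : ℝ)|
    · refine mul_nonneg (mod_cast (MeromorphicOn.AnalyticOnNhd.divisor_nonneg h1) u) ?_
      rw [abs_one, mem_closedBall_zero_iff] at hu
      rw [one_mul, zero_sub, norm_neg]
      by_cases hu0 : ‖u‖ = 0
      · rw [hu0]
        simp
      · apply Real.log_nonneg
        have : 0 < ‖u‖ := lt_of_le_of_ne (norm_nonneg _) (Ne.symm hu0)
        exact (one_le_inv₀ this).2 hu
    · simp [Function.locallyFinsuppWithin.apply_eq_zero_of_notMem _ hu]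
  linarith

theorem log_le_integral_posLog {f : ℂ → ℂ} (hf : AnalyticOnNhd ℂ f (closedBall 0 1)) (h0 : f 0 ≠ 0) :
    Real.log ‖f 0‖ ≤ (1 / (2 * Real.pi)) *
      ∫ θ in Ioc (-Real.pi) Real.pi, Real.posLog ‖f (Complex.exp (θ * I))‖ := by
  have hcm : ∀ θ : ℝ, circleMap 0 1 θ = Complex.exp (θ * I) := by
    intro θ
    simp [circleMap]
  have hcont : ContinuousOn (fun z => Real.posLog ‖f z‖) (sphere 0 1) := by
    have : ContinuousOn f (sphere 0 1) := hf.continuousOn.mono sphere_subset_closedBall
    exact Real.continuous_posLog.comp_continuousOn this.norm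
  have hint1 : CircleIntegrable (fun z => Real.log ‖f z‖) 0 1 := by
    have : MeromorphicOn f (sphere 0 |(1 : ℝ)|) := by
      rw [abs_one]
      exact (hf.mono sphere_subset_closedBall).meromorphicOn
    exact this.circleIntegrable_log_norm
  have hint2 : CircleIntegrable (fun z => Real.posLog ‖f z‖) 0 1 :=
    hcont.circleIntegrable zero_le_one
  have h1 : Real.circleAverage (fun z => Real.log ‖f z‖) 0 1 ≤
      Real.circleAverage (fun z => Real.posLog ‖f z‖) 0 1 := by
    apply Real.circleAverage_mono hint1 hint2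
    intro x _
    exact le_max_right _ _
  refine (log_norm_le_circleAverage hf h0).trans (h1.trans (le_of_eq ?_))
  rw [Real.circleAverage_def, smul_eq_mul, one_div]
  congr 1
  have hper : Function.Periodic (fun θ : ℝ => Real.posLog ‖f (circleMap 0 1 θ)‖) (2 * Real.pi) := by
    intro θ
    simp only
    rw [periodic_circleMap]
  have h2 := hper.intervalIntegral_add_eq 0 (-Real.pi)
  rw [zero_add, show -Real.pi + 2 * Real.pi = Real.pi by ring] at h2
  rw [h2, intervalIntegral.integral_of_le (by linarith [Real.pi_pos])]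
  simp only [hcm]

end Pool.Agent.Helper87.Cov
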