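import Pool.Agent.Helper87.Cov.Coef

/-!
# Holomorphic dependence of contour integrals on a parameter
-/

open MeasureTheory Set Filter Topology Complex Metric

namespace Pool.Agent.Helper87.Cov

theorem differentiableOn_integral {U : Set ℂ} (hU : IsOpen U) {a b : ℝ} {Φ : ℂ → ℝ → ℂ}
    (hc : ContinuousOn (fun p : ℂ × ℝ => Φ p.1 p.2) (U ×ˢ uIcc a b))
    (hd : ∀ t ∈ uIcc a b, DifferentiableOn ℂ (fun s => Φ s t) U) :
    DifferentiableOn ℂ (fun s => ∫ t in a..b, Φ s t) U := by
  intro s₀ hs₀
  apply DifferentiableAt.differentiableWithinAt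
  obtain ⟨δ', hδ', hball'⟩ := Metric.nhds_basis_closedBall.mem_iff.1 (hU.mem_nhds hs₀)
  set δ : ℝ := δ' / 2 with hδdef
  have hδ : 0 < δ := by positivity
  have hball : closedBall s₀ (2 * δ) ⊆ U := by
    have : 2 * δ = δ' := by rw [hδdef]; ring
    rw [this]
    exact hball'
  have hsec : ∀ s ∈ U, ContinuousOn (Φ s) (uIcc a b) := by
    intro s hs
    have : ContinuousOn (fun t : ℝ => (s, t)) (uIcc a b) := by fun_prop
    exact hc.comp this (fun t ht => ⟨hs, ht⟩)
  have hmeas : ∀ s ∈ U, AEStronglyMeasurable (Φ s) (volume.restrict (uIoc a b)) := by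
    intro s hs
    exact ((hsec s hs).mono uIoc_subset_uIcc).aestronglyMeasurable measurableSet_uIoc
  have hcomp : IsCompact (closedBall s₀ (2 * δ) ×ˢ uIcc a b) :=
    (isCompact_closedBall _ _).prod isCompact_uIcc
  obtain ⟨M, hM⟩ := hcomp.exists_bound_of_continuousOn
    (hc.mono (prod_mono_left hball))
  have hsub : ball s₀ δ ⊆ U := fun x hx => hball (by
    rw [mem_closedBall]
    rw [mem_ball] at hx
    linarith)
  have hderiv : ∀ t ∈ uIcc a b, ∀ s ∈ ball s₀ δ, HasDerivAt (fun x => Φ x t) (deriv (fun x => Φ x t) s) s := by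
    intro t ht s hs
    exact ((hd t ht).differentiableAt (hU.mem_nhds (hsub hs))).hasDerivAt
  have key := intervalIntegral.hasDerivAt_integral_of_dominated_loc_of_deriv_le (μ := volume)
    (F := Φ) (F' := fun s t => deriv (fun x => Φ x t) s) (x₀ := s₀) (s := ball s₀ δ) (a := a) (b := b)
    (bound := fun _ => M / δ) (ball_mem_nhds s₀ hδ)
    (by
      filter_upwards [hU.mem_nhds hs₀] with s hs
      exact hmeas s hs)
    ((hsec s₀ hs₀).intervalIntegrable)
    (by
      have hh : Tendsto (fun n : ℕ => ((δ / (n + 1) : ℝ) : ℂ)) atTop (𝓝[≠] 0) := by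
        rw [tendsto_nhdsWithin_iff]
        constructor
        · rw [← ofReal_zero]
          apply (continuous_ofReal.tendsto 0).comp
          exact tendsto_const_nhds.div_atTop (tendsto_natCast_atTop_atTop.atTop_add tendsto_const_nhds)
        · apply Eventually.of_forall
          intro n
          simp only [mem_compl_iff, mem_singleton_iff]
          have : (δ / (n + 1) : ℝ) ≠ 0 := by positivity
          exact_mod_cast this
      apply aestronglyMeasurable_of_tendsto_ae (u := (atTop : Filter ℕ))
        (f := fun n t => ((δ / (n + 1) : ℝ) : ℂ)⁻¹ • (Φ (s₀ + ((δ / (n + 1) : ℝ) : ℂ)) t - Φ s₀ t))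
      · intro n
        refine (AEStronglyMeasurable.sub (hmeas _ ?_) (hmeas s₀ hs₀)).const_smul
          (((δ / (n + 1) : ℝ) : ℂ)⁻¹)
        apply hball
        rw [mem_closedBall, dist_eq_norm, add_sub_cancel_left, norm_real, Real.norm_of_nonneg (by positivity)]
        have : δ / (n + 1) ≤ δ := div_le_self hδ.le (by linarith [(Nat.cast_nonneg n : (0 : ℝ) ≤ n)])
        linarith
      · rw [ae_restrict_iff' measurableSet_uIoc]
        apply Eventually.of_forall
        intro t ht
        have h1 := hderiv t (uIoc_subset_uIcc ht) s₀ (mem_ball_self hδ)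
        rw [hasDerivAt_iff_tendsto_slope_zero] at h1
        exact h1.comp hh)
    (by
      apply Eventually.of_forall
      intro t ht s hs
      have ht' := uIoc_subset_uIcc ht
      apply norm_deriv_le_of_forall_mem_sphere_norm_le hδ
      · have hsub2 : closedBall s δ ⊆ closedBall s₀ (2 * δ) := by
          intro x hx
          rw [mem_closedBall] at hx ⊢
          rw [mem_ball] at hs
          have := dist_triangle x s s₀
          linarith
        have : DifferentiableOn ℂ (fun x => Φ x t) (closure (ball s δ)) := by
          apply (hd t ht').mono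
          exact closure_ball_subset_closedBall.trans (hsub2.trans hball)
        exact this.diffContOnCl
      · intro z hz
        apply hM (z, t)
        refine ⟨?_, ht'⟩
        simp only
        rw [mem_closedBall]
        rw [mem_sphere] at hz
        rw [mem_ball] at hs
        have := dist_triangle z s s₀
        linarith)
    (by simp)
    (by
      apply Eventually.of_forall
      intro t ht s hs
      exact hderiv t (uIoc_subset_uIcc ht) s hs)
  exact key.2.differentiableAt

theorem differentiableOn_cf {U : Set ℂ} (hU : IsOpen U) {R : ℝ} (hR : 0 < R) (n : ℕ) {F : ℂ → ℂ → ℂ}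
    (hc : ContinuousOn (fun p : ℂ × ℂ => F p.1 p.2) (U ×ˢ sphere 0 R))
    (hd : ∀ z ∈ sphere (0 : ℂ) R, DifferentiableOn ℂ (fun s => F s z) U) :
    DifferentiableOn ℂ (fun s => cf R n (F s)) U := by
  unfold cf
  apply DifferentiableOn.const_mul
  unfold circleIntegral
  simp only [smul_eq_mul]
  have hmem : ∀ t : ℝ, circleMap 0 R t ∈ sphere (0 : ℂ) R := fun t => circleMap_mem_sphere 0 hR.le t
  apply differentiableOn_integral hU
  · apply ContinuousOn.mul
    · have : Continuous (fun p : ℂ × ℝ => deriv (circleMap 0 R) p.2) := by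
        simp only [deriv_circleMap]
        exact ((continuous_circleMap 0 R).comp continuous_snd).mul continuous_const
      exact this.continuousOn
    · apply ContinuousOn.mul
      · apply ContinuousOn.pow
        apply ContinuousOn.inv₀
        · exact ((continuous_circleMap 0 R).comp continuous_snd).continuousOn
        · intro p _
          exact ne_zero_of_mem_sphere' hR (hmem p.2)
      · have : ContinuousOn (fun p : ℂ × ℝ => (p.1, circleMap 0 R p.2)) (U ×ˢ uIcc 0 (2 * Real.pi)) :=
          (continuous_fst.prodMk ((continuous_circleMap 0 R).comp continuous_snd)).continuousOn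
        exact hc.comp this (fun p hp => ⟨hp.1, hmem p.2⟩)
  · intro t _
    apply DifferentiableOn.const_mul
    apply DifferentiableOn.const_mul
    exact hd _ (hmem t)

end Pool.Agent.Helper87.Cov
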