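import Pool.Agent.Helper87.Cov.CircleLim
import Pool.Agent.Helper87.Cov.Centre
import Pool.Agent.Helper87.Cov.Param
import Pool.Agent.Helper87.Cov.Factor
import Pool.Agent.Helper87.Cov.Jensen

/-!
# Sub-mean value property of the counting function of poles of a holomorphic family
-/

open MeasureTheory Set Filter Topology Complex Metric

namespace Pool.Agent.Helper87.Cov

theorem hankel_submean' {G₁ G₂ : ℂ → ℂ → ℂ} {R₀ : ℝ} (hR₀ : 1 < R₀)
    (h₁ : DifferentiableOn ℂ (fun p : ℂ × ℂ => G₁ p.1 p.2) (Metric.ball (0 : ℂ) R₀ ×ˢ univ))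
    (h₂ : DifferentiableOn ℂ (fun p : ℂ × ℂ => G₂ p.1 p.2) (Metric.ball (0 : ℂ) R₀ ×ˢ univ))
    (h0 : ∀ s ∈ Metric.ball (0 : ℂ) R₀, G₂ s 0 ≠ 0)
    {r : ℝ} (hr : 0 < r) (Z : Finset ℂ)
    (hZ : ∀ z ∈ Z, ‖z‖ < r ∧ G₂ 0 z = 0 ∧ G₁ 0 z ≠ 0)
    (B : ℝ → ENNReal)
    (hθ : ∀ θ : ℝ, ∃ (W : Multiset ℂ) (E : ℂ → ℂ), (∀ w ∈ W, w ≠ 0 ∧ ‖w‖ < r) ∧
      DifferentiableOn ℂ E (Metric.ball 0 r) ∧
      (∀ z ∈ Metric.ball (0 : ℂ) r, (W.map (fun w => 1 - z / w)).prod *
        G₁ (Complex.exp (θ * Complex.I)) z = E z * G₂ (Complex.exp (θ * Complex.I)) z) ∧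
      ENNReal.ofReal ((W.map (fun w => Real.log (r / ‖w‖))).sum) ≤ B θ) :
    ENNReal.ofReal (∑ z ∈ Z, Real.log (r / ‖z‖)) ≤
      ENNReal.ofReal (1 / (2 * Real.pi)) * ∫⁻ θ in Ioc (-Real.pi) Real.pi, B θ := by
  have hR0pos : 0 < R₀ := zero_lt_one.trans hR₀
  have hopen : IsOpen (ball (0 : ℂ) R₀ ×ˢ (univ : Set ℂ)) := isOpen_ball.prod isOpen_univ
  have hsec₁ : ∀ s ∈ ball (0 : ℂ) R₀, Differentiable ℂ (G₁ s) := by
    intro s hs z
    have h := h₁.differentiableAt (hopen.mem_nhds (show (s, z) ∈ _ from ⟨hs, mem_univ _⟩))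
    exact h.comp z (f := fun z => (s, z)) (by fun_prop)
  have hsec₂ : ∀ s ∈ ball (0 : ℂ) R₀, Differentiable ℂ (G₂ s) := by
    intro s hs z
    have h := h₂.differentiableAt (hopen.mem_nhds (show (s, z) ∈ _ from ⟨hs, mem_univ _⟩))
    exact h.comp z (f := fun z => (s, z)) (by fun_prop)
  have hsec₁' : ∀ z, DifferentiableOn ℂ (fun s => G₁ s z) (ball (0 : ℂ) R₀) := by
    intro z s hs
    have h := h₁.differentiableAt (hopen.mem_nhds (show (s, z) ∈ _ from ⟨hs, mem_univ _⟩))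
    exact (h.comp s (f := fun s => (s, z)) (by fun_prop)).differentiableWithinAt
  have hsec₂' : ∀ z, DifferentiableOn ℂ (fun s => G₂ s z) (ball (0 : ℂ) R₀) := by
    intro z s hs
    have h := h₂.differentiableAt (hopen.mem_nhds (show (s, z) ∈ _ from ⟨hs, mem_univ _⟩))
    exact (h.comp s (f := fun s => (s, z)) (by fun_prop)).differentiableWithinAt
  -- a small circle on which `G₂` does not vanish
  obtain ⟨U, r₀, hUo, hUsub, hUball, hr₀, hr₀r, hUne⟩ : ∃ (U : Set ℂ) (r₀ : ℝ), IsOpen U ∧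
      closedBall (0 : ℂ) 1 ⊆ U ∧ U ⊆ ball (0 : ℂ) R₀ ∧ 0 < r₀ ∧ r₀ < r ∧
      ∀ s ∈ U, ∀ z ∈ closedBall (0 : ℂ) r₀, G₂ s z ≠ 0 := by
    have hne : IsOpen {p : ℂ × ℂ | p ∈ ball (0 : ℂ) R₀ ×ˢ (univ : Set ℂ) ∧ G₂ p.1 p.2 ≠ 0} := by
      have := h₂.continuousOn.isOpen_inter_preimage hopen (isOpen_compl_singleton (x := (0 : ℂ)))
      exact this
    obtain ⟨u, v, hu, hv, hsu, htv, huv⟩ := generalized_tube_lemma (isCompact_closedBall (0 : ℂ) 1)
      (isCompact_singleton (x := (0 : ℂ))) hne (by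
        rintro ⟨s, z⟩ ⟨hs, hz⟩
        simp only [mem_singleton_iff] at hz
        subst hz
        have hs' : s ∈ ball (0 : ℂ) R₀ := closedBall_subset_ball hR₀ hs
        exact ⟨⟨hs', mem_univ _⟩, h0 s hs'⟩)
    obtain ⟨δ, hδ, hball⟩ := Metric.nhds_basis_closedBall.mem_iff.1 (hv.mem_nhds (htv rfl))
    refine ⟨u ∩ ball 0 R₀, min δ (r / 2), hu.inter isOpen_ball,
      subset_inter hsu (closedBall_subset_ball hR₀), inter_subset_right, by positivity, ?_, ?_⟩
    · exact (min_le_right _ _).trans_lt (by linarith)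
    · intro s hs z hz
      have hz' : z ∈ v := hball (closedBall_subset_closedBall (min_le_left _ _) hz)
      exact (huv (show (s, z) ∈ u ×ˢ v from ⟨hs.1, hz'⟩)).2
  have hUmem0 : (0 : ℂ) ∈ U := hUsub (mem_closedBall_self zero_le_one)
  have h00 : (0 : ℂ) ∈ ball (0 : ℂ) R₀ := hUball hUmem0
  -- the multiplier
  obtain ⟨D, V, hD, hV, hDV⟩ := exists_multiplier (hsec₂ 0 h00) (h0 0 h00) hr Z
    (fun z hz => ⟨(hZ z hz).1.le, (hZ z hz).2.1⟩)
  set m : ℕ := Z.card with hm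
  set F : ℂ → ℂ → ℂ := fun s z => D z * (G₁ s z / G₂ s z) with hF
  have hFc : ContinuousOn (fun p : ℂ × ℂ => F p.1 p.2) (U ×ˢ closedBall 0 r₀) := by
    have hsub : U ×ˢ closedBall (0 : ℂ) r₀ ⊆ ball (0 : ℂ) R₀ ×ˢ (univ : Set ℂ) :=
      prod_mono hUball (subset_univ _)
    apply ContinuousOn.mul
    · exact (hD.continuous.comp continuous_snd).continuousOn
    · apply ContinuousOn.div (h₁.continuousOn.mono hsub) (h₂.continuousOn.mono hsub)
      intro p hp
      exact hUne p.1 hp.1 p.2 hp.2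
  have hFd : ∀ z ∈ sphere (0 : ℂ) r₀, DifferentiableOn ℂ (fun s => F s z) U := by
    intro z hz
    apply DifferentiableOn.const_mul
    apply DifferentiableOn.fun_div ((hsec₁' z).mono hUball) ((hsec₂' z).mono hUball)
    exact fun s hs => hUne s hs z (sphere_subset_closedBall hz)
  set h : ℕ → ℂ → ℂ := fun k s => ((r : ℂ) ^ (k * m)) * (hkM r₀ m k (F s)).det with hh
  have hhd : ∀ k, DifferentiableOn ℂ (h k) U := by
    intro k
    apply DifferentiableOn.const_mul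
    have : (fun s => (hkM r₀ m k (F s)).det) = fun s => ∑ σ : Equiv.Perm (Fin m),
        ((Equiv.Perm.sign σ : ℤ) : ℂ) * ∏ i, cf r₀ (k + (σ i : ℕ) + i) (F s) := by
      funext s
      rw [Matrix.det_apply']
      rfl
    rw [this]
    apply DifferentiableOn.fun_sum
    intro σ _
    apply DifferentiableOn.const_mul
    apply DifferentiableOn.fun_finsetProd
    intro i _
    apply differentiableOn_cf hUo hr₀
    · exact hFc.mono (prod_mono_right sphere_subset_closedBall)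
    · exact hFd
  have hha : ∀ k, AnalyticOnNhd ℂ (h k) (closedBall 0 1) := fun k =>
    ((hhd k).analyticOnNhd hUo).mono hUsub
  -- uniform bound
  obtain ⟨M, hM⟩ := ((isCompact_closedBall (0 : ℂ) 1).prod (isCompact_sphere (0 : ℂ) r₀)).exists_bound_of_continuousOn
    (hFc.mono (prod_mono hUsub sphere_subset_closedBall))
  set C₁ : ℝ := Real.posLog (m.factorial * ((max M 0) * (max 1 r₀⁻¹) ^ (2 * m)) ^ m) + m * Real.log (r / r₀)
    with hC₁
  have hunif : ∀ k : ℕ, 1 ≤ k → ∀ s ∈ closedBall (0 : ℂ) 1, (1 / k : ℝ) * Real.posLog ‖h k s‖ ≤ C₁ := by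
    intro k hk s hs
    exact posLog_uniform hr₀ hr₀r m (le_max_right _ _)
      (fun z hz => (hM (s, z) ⟨hs, hz⟩).trans (le_max_left _ _)) hk
  have hexp : ∀ θ : ℝ, Complex.exp (θ * I) ∈ closedBall (0 : ℂ) 1 := by
    intro θ
    rw [mem_closedBall_zero_iff, Complex.norm_exp_ofReal_mul_I]
  have hcontθ : ∀ k : ℕ, Continuous (fun θ : ℝ => (1 / k : ℝ) * Real.posLog ‖h k (Complex.exp (θ * I))‖) := by
    intro k
    apply Continuous.mul continuous_const
    apply Real.continuous_posLog.comp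
    apply Continuous.norm
    have h1 : Continuous (fun θ : ℝ => Complex.exp (θ * I)) := by fun_prop
    exact ((hhd k).continuousOn).comp_continuous h1 (fun θ => hUsub (hexp θ))
  set v : ℕ → ℝ → ENNReal := fun k θ => ENNReal.ofReal ((1 / k : ℝ) * Real.posLog ‖h k (Complex.exp (θ * I))‖)
    with hv
  have hvmeas : ∀ k, Measurable (v k) := fun k => (hcontθ k).measurable.ennreal_ofReal
  -- pointwise limsup
  have hlimsup : ∀ θ : ℝ, limsup (fun n : ℕ => v (n + 1) θ) atTop ≤ B θ := by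
    intro θ
    obtain ⟨W, E, hW, hE, hEq, hB⟩ := hθ θ
    set L : List ℂ := W.toList.insertionSort (fun v w => ‖v‖ ≤ ‖w‖) with hL
    have hLW : (L : Multiset ℂ) = W := by
      rw [hL, Multiset.coe_eq_coe.2 (List.perm_insertionSort _ _), Multiset.coe_toList]
    have hLs : L.Pairwise (fun v w => ‖v‖ ≤ ‖w‖) := by
      have : Std.Total (fun v w : ℂ => ‖v‖ ≤ ‖w‖) := ⟨fun v w => le_total _ _⟩
      have : IsTrans ℂ (fun v w : ℂ => ‖v‖ ≤ ‖w‖) := ⟨fun _ _ _ => le_trans⟩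
      exact List.pairwise_insertionSort _ _
    have hLmem : ∀ w ∈ L, w ≠ 0 ∧ ‖w‖ < r := by
      intro w hw
      apply hW
      rw [← hLW]
      exact hw
    have hsθ : Complex.exp (θ * I) ∈ U := hUsub (hexp θ)
    have hev : ∀ ε : ℝ, 0 < ε → limsup (fun n : ℕ => v (n + 1) θ) atTop ≤
        ENNReal.ofReal ((L.map (fun w => Real.log (r / ‖w‖))).sum + ε) := by
      intro ε hε
      have key := circle_limsup hr₀ hr₀r m hD (hsec₁ _ (hUball hsθ)) (hsec₂ _ (hUball hsθ))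
        (hUne _ hsθ) L hLs hLmem hE (by
          intro z hz
          have := hEq z hz
          rw [← hLW, Multiset.map_coe, Multiset.prod_coe] at this
          exact this) hε
      have key' := (tendsto_add_atTop_nat 1).eventually key
      apply limsup_le_of_le (by isBoundedDefault)
      filter_upwards [key'] with n hn
      exact ENNReal.ofReal_le_ofReal hn
    have hS : ENNReal.ofReal ((L.map (fun w => Real.log (r / ‖w‖))).sum) ≤ B θ := by
      rw [← hLW, Multiset.map_coe, Multiset.sum_coe] at hB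
      exact hB
    refine le_trans ?_ hS
    have htend : Tendsto (fun ε : ℝ => ENNReal.ofReal ((L.map (fun w => Real.log (r / ‖w‖))).sum + ε))
        (𝓝[>] 0) (𝓝 (ENNReal.ofReal ((L.map (fun w => Real.log (r / ‖w‖))).sum + 0))) := by
      apply ENNReal.tendsto_ofReal
      apply Tendsto.add tendsto_const_nhds
      exact tendsto_nhdsWithin_of_tendsto_nhds tendsto_id
    rw [add_zero] at htend
    apply ge_of_tendsto htend
    filter_upwards [self_mem_nhdsWithin] with ε hε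
    exact hev ε hε
  -- centre
  set e := Z.equivFin.symm with he
  set z : Fin m → ℂ := fun j => (e j : ℂ) with hz
  have hzinj : Function.Injective z := fun a b hab => e.injective (Subtype.ext hab)
  have hzZ : ∀ j, z j ∈ Z := fun j => (e j).2
  have hzr₀ : ∀ j, r₀ < ‖z j‖ := by
    intro j
    by_contra hcon
    push Not at hcon
    exact hUne 0 hUmem0 (z j) (by simpa using hcon) (hZ _ (hzZ j)).2.1
  have hprodZ : ∀ x : ℂ, ∏ w ∈ Z, (1 - x / w) = ∏ j, (1 - x / z j) := by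
    intro x
    rw [← Finset.prod_coe_sort Z (fun w => 1 - x / w), ← Equiv.prod_comp e]
  have hF0c : ContinuousOn (F 0) (sphere 0 r₀) := by
    have : ContinuousOn (fun x : ℂ => ((0 : ℂ), x)) (sphere 0 r₀) := by fun_prop
    exact hFc.comp this (fun x hx => ⟨hUmem0, sphere_subset_closedBall hx⟩)
  obtain ⟨c, hc0, hc⟩ := centre_lower hr₀ hr₀r m z hzinj (fun j => ⟨hzr₀ j, (hZ _ (hzZ j)).1⟩)
    (F := F 0) (N := fun x => V x * G₁ 0 x) hF0c
    (fun x hx => (hV x hx).1.mul (hsec₁ 0 h00 x))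
    (fun j => mul_ne_zero (hV _ (by simpa using (hZ _ (hzZ j)).1.le)).2 (hZ _ (hzZ j)).2.2)
    (by
      intro x hx
      have hx' : x ∈ closedBall (0 : ℂ) r := closedBall_subset_closedBall hr₀r.le (sphere_subset_closedBall hx)
      have h2 := hUne 0 hUmem0 x (sphere_subset_closedBall hx)
      have h3 := hDV x hx'
      rw [← hprodZ x]
      simp only [hF]
      field_simp
      linear_combination (G₁ 0 x) * h3)
  have hcen : ∀ᶠ k : ℕ in atTop, ENNReal.ofReal ((1 / k : ℝ) * Real.log c + ∑ z ∈ Z, Real.log (r / ‖z‖)) ≤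
      ENNReal.ofReal (1 / (2 * Real.pi)) * ∫⁻ θ in Ioc (-Real.pi) Real.pi, v k θ := by
    filter_upwards [hc, eventually_ge_atTop 1] with k hk hk1
    have hk0 : (0 : ℝ) < k := by exact_mod_cast hk1
    have hzpos : ∀ j, 0 < ‖z j‖ := fun j => hr₀.trans (hzr₀ j)
    have hprodpos : 0 < ∏ j, ‖z j‖ ^ k := Finset.prod_pos (fun j _ => pow_pos (hzpos j) k)
    have hdet : h k 0 ≠ 0 := by
      simp only [hh]
      apply mul_ne_zero
      · apply pow_ne_zero
        exact_mod_cast hr.ne'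
      · intro hd
        rw [hd, norm_zero, zero_mul] at hk
        linarith
    have hJ := log_le_integral_posLog (hha k) hdet
    have hlow : Real.log c + k * ∑ z ∈ Z, Real.log (r / ‖z‖) ≤ Real.log ‖h k 0‖ := by
      have h1 : c * ∏ j, (r / ‖z j‖) ^ k ≤ ‖h k 0‖ := by
        simp only [hh]
        rw [norm_mul, norm_pow, norm_real, Real.norm_of_nonneg hr.le]
        have h2 : ∏ j, (r / ‖z j‖) ^ k = r ^ (k * m) / ∏ j, ‖z j‖ ^ k := by
          simp only [div_pow]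
          rw [Finset.prod_div_distrib, Finset.prod_const, Finset.card_univ, Fintype.card_fin, ← pow_mul]
        rw [h2, ← mul_div_assoc, div_le_iff₀ hprodpos]
        calc c * r ^ (k * m) = r ^ (k * m) * c := mul_comm _ _
          _ ≤ r ^ (k * m) * (‖(hkM r₀ m k (F 0)).det‖ * ∏ j, ‖z j‖ ^ k) :=
              mul_le_mul_of_nonneg_left hk (by positivity)
          _ = _ := by ring
      have h3 : Real.log (c * ∏ j, (r / ‖z j‖) ^ k) = Real.log c + k * ∑ z ∈ Z, Real.log (r / ‖z‖) := by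
        have hp : ∀ j ∈ (Finset.univ : Finset (Fin m)), (r / ‖z j‖) ^ k ≠ 0 := fun j _ =>
          pow_ne_zero _ (div_pos hr (hzpos j)).ne'
        rw [Real.log_mul hc0.ne' (Finset.prod_ne_zero_iff.2 hp), Real.log_prod hp]
        congr 1
        rw [← Finset.sum_coe_sort Z (fun w => Real.log (r / ‖w‖)), ← Equiv.sum_comp e, Finset.mul_sum]
        apply Finset.sum_congr rfl
        intro j _
        rw [Real.log_pow]
      rw [← h3]
      apply Real.log_le_log _ h1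
      exact mul_pos hc0 (Finset.prod_pos (fun j _ => pow_pos (div_pos hr (hzpos j)) k))
    have hreal : (1 / k : ℝ) * Real.log c + ∑ z ∈ Z, Real.log (r / ‖z‖) ≤
        (1 / (2 * Real.pi)) * ∫ θ in Ioc (-Real.pi) Real.pi,
          (1 / k : ℝ) * Real.posLog ‖h k (Complex.exp (θ * I))‖ := by
      rw [integral_const_mul]
      have h1 := hlow.trans hJ
      have h2 := mul_le_mul_of_nonneg_left h1 (show (0 : ℝ) ≤ 1 / k by positivity)
      calc (1 / k : ℝ) * Real.log c + ∑ z ∈ Z, Real.log (r / ‖z‖)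
          = (1 / k : ℝ) * (Real.log c + k * ∑ z ∈ Z, Real.log (r / ‖z‖)) := by
            field_simp
        _ ≤ _ := h2
        _ = _ := by ring
    refine (ENNReal.ofReal_le_ofReal hreal).trans (le_of_eq ?_)
    rw [ENNReal.ofReal_mul (by positivity)]
    congr 1
    rw [ofReal_integral_eq_lintegral_ofReal]
    · exact ((hcontθ k).integrableOn_Icc).mono_set Ioc_subset_Icc_self
    · apply Eventually.of_forall
      intro θ
      have := Real.posLog_nonneg (x := ‖h k (Complex.exp (θ * I))‖)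
      simp only [Pi.zero_apply]
      positivity
  -- conclusion
  have hlimC : Tendsto (fun n : ℕ => ENNReal.ofReal ((1 / (n + 1 : ℕ) : ℝ) * Real.log c + ∑ z ∈ Z, Real.log (r / ‖z‖)))
      atTop (𝓝 (ENNReal.ofReal (∑ z ∈ Z, Real.log (r / ‖z‖)))) := by
    apply ENNReal.tendsto_ofReal
    have h1 := ((tendsto_one_div_atTop_nhds_zero_nat (𝕜 := ℝ)).comp (tendsto_add_atTop_nat 1)).mul_const (Real.log c)
    have h2 := h1.add_const (∑ z ∈ Z, Real.log (r / ‖z‖))
    rw [zero_mul, zero_add] at h2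
    exact h2
  rw [← hlimC.limsup_eq]
  calc limsup (fun n : ℕ => ENNReal.ofReal ((1 / (n + 1 : ℕ) : ℝ) * Real.log c + ∑ z ∈ Z, Real.log (r / ‖z‖))) atTop
      ≤ limsup (fun n : ℕ => ENNReal.ofReal (1 / (2 * Real.pi)) * ∫⁻ θ in Ioc (-Real.pi) Real.pi, v (n + 1) θ) atTop := by
        apply limsup_le_limsup
        · exact (tendsto_add_atTop_nat 1).eventually hcen
        · isBoundedDefault
        · isBoundedDefault
    _ = ENNReal.ofReal (1 / (2 * Real.pi)) * limsup (fun n : ℕ => ∫⁻ θ in Ioc (-Real.pi) Real.pi, v (n + 1) θ) atTop :=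
        ENNReal.limsup_const_mul_of_ne_top ENNReal.ofReal_ne_top
    _ ≤ ENNReal.ofReal (1 / (2 * Real.pi)) * ∫⁻ θ in Ioc (-Real.pi) Real.pi, B θ := by
        gcongr
        refine (limsup_lintegral_le (fun _ => ENNReal.ofReal C₁) (fun n => hvmeas (n + 1)) ?_ ?_).trans ?_
        · intro n
          apply Eventually.of_forall
          intro θ
          exact ENNReal.ofReal_le_ofReal (hunif (n + 1) (by omega) _ (hexp θ))
        · rw [lintegral_const]
          exact ENNReal.mul_ne_top ENNReal.ofReal_ne_top (by simp)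
        · exact lintegral_mono (fun θ => hlimsup θ)

/-- The exact interface statement. -/
theorem hankel_submean {G₁ G₂ : ℂ → ℂ → ℂ} {R₀ : ℝ} (hR₀ : 1 < R₀)
    (h₁ : DifferentiableOn ℂ (fun p : ℂ × ℂ => G₁ p.1 p.2) (Metric.ball (0 : ℂ) R₀ ×ˢ univ))
    (h₂ : DifferentiableOn ℂ (fun p : ℂ × ℂ => G₂ p.1 p.2) (Metric.ball (0 : ℂ) R₀ ×ˢ univ))
    (h0 : ∀ s ∈ Metric.ball (0 : ℂ) R₀, G₂ s 0 ≠ 0)
    {r : ℝ} (hr : 0 < r) (Z : Finset ℂ)
    (hZ : ∀ z ∈ Z, ‖z‖ < r ∧ G₂ 0 z = 0 ∧ deriv (G₂ 0) z ≠ 0 ∧ G₁ 0 z ≠ 0)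
    (B : ℝ → ENNReal) (_hB : Measurable B)
    (hθ : ∀ θ : ℝ, ∃ (W : Multiset ℂ) (E : ℂ → ℂ), (∀ w ∈ W, w ≠ 0 ∧ ‖w‖ < r) ∧
      DifferentiableOn ℂ E (Metric.ball 0 r) ∧
      (∀ z ∈ Metric.ball (0 : ℂ) r, (W.map (fun w => 1 - z / w)).prod *
        G₁ (Complex.exp (θ * Complex.I)) z = E z * G₂ (Complex.exp (θ * Complex.I)) z) ∧
      ENNReal.ofReal ((W.map (fun w => Real.log (r / ‖w‖))).sum) ≤ B θ) :
    ENNReal.ofReal (∑ z ∈ Z, Real.log (r / ‖z‖)) ≤
      ENNReal.ofReal (1 / (2 * Real.pi)) * ∫⁻ θ in Ioc (-Real.pi) Real.pi, B θ :=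
  hankel_submean' hR₀ h₁ h₂ h0 hr Z (fun z hz => ⟨(hZ z hz).1, (hZ z hz).2.1, (hZ z hz).2.2.2⟩) B hθ

end Pool.Agent.Helper87.Cov
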