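import Pool.Agent.Helper87.Cov.HankelDet

/-!
# Upper bounds for Hankel determinants
-/

open MeasureTheory Set Filter Topology Complex Metric Polynomial

namespace Pool.Agent.Helper87.Cov

/-- entrywise bound by columns gives a bound for `log⁺` of the normalised determinant -/
theorem posLog_det_le {m k : ℕ} (hk : 1 ≤ k) {r : ℝ} (hr : 0 < r) {A : ℝ}
    (M : Matrix (Fin m) (Fin m) ℂ) (c : ℕ → ℝ) (hc : ∀ l < m, 0 < c l ∧ c l ≤ r)
    (h : ∀ i l : Fin m, ‖M i l‖ ≤ A * (c l)⁻¹ ^ k) :
    (1 / k : ℝ) * Real.posLog ‖((r : ℂ) ^ (k * m)) * M.det‖ ≤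
      (1 / k : ℝ) * Real.posLog (m.factorial * A ^ m) + ∑ l ∈ Finset.range m, Real.log (r / c l) := by
  have hk0 : (0 : ℝ) < k := by exact_mod_cast hk
  have h1 : ‖((r : ℂ) ^ (k * m)) * M.det‖ ≤
      (m.factorial * A ^ m) * ∏ l ∈ Finset.range m, (r / c l) ^ k := by
    rw [norm_mul, norm_pow, norm_real, Real.norm_of_nonneg hr.le]
    have h2 := norm_det_le M (fun l => A * (c l)⁻¹ ^ k) h
    calc r ^ (k * m) * ‖M.det‖ ≤ r ^ (k * m) * (m.factorial * ∏ l : Fin m, (A * (c l)⁻¹ ^ k)) :=
          mul_le_mul_of_nonneg_left h2 (by positivity)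
      _ = (m.factorial * A ^ m) * ∏ l ∈ Finset.range m, (r / c l) ^ k := by
          rw [Finset.prod_mul_distrib, Finset.prod_const, Finset.card_univ, Fintype.card_fin,
            Fin.prod_univ_eq_prod_range (fun l => (c l)⁻¹ ^ k) m]
          have : ∏ l ∈ Finset.range m, (r / c l) ^ k = r ^ (k * m) * ∏ l ∈ Finset.range m, (c l)⁻¹ ^ k := by
            simp only [div_eq_mul_inv, mul_pow]
            rw [Finset.prod_mul_distrib, Finset.prod_const, Finset.card_range, ← pow_mul]
          rw [this]
          ring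
  have hone : ∀ l ∈ Finset.range m, 1 ≤ (r / c l) := by
    intro l hl
    have := hc l (Finset.mem_range.1 hl)
    rw [le_div_iff₀ this.1, one_mul]
    exact this.2
  have h2 : Real.posLog ‖((r : ℂ) ^ (k * m)) * M.det‖ ≤
      Real.posLog (m.factorial * A ^ m) + k * ∑ l ∈ Finset.range m, Real.log (r / c l) := by
    refine (Real.posLog_le_posLog (norm_nonneg _) h1).trans (Real.posLog_mul.trans ?_)
    gcongr
    refine (Real.posLog_prod _ _).trans (le_of_eq ?_)
    rw [Finset.mul_sum]
    apply Finset.sum_congr rfl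
    intro l hl
    rw [Real.posLog_pow, Real.posLog_eq_log]
    rw [abs_of_nonneg]
    · exact hone l hl
    · linarith [hone l hl]
  calc (1 / k : ℝ) * Real.posLog ‖((r : ℂ) ^ (k * m)) * M.det‖
      ≤ (1 / k : ℝ) * (Real.posLog (m.factorial * A ^ m) + k * ∑ l ∈ Finset.range m, Real.log (r / c l)) :=
        mul_le_mul_of_nonneg_left h2 (by positivity)
    _ = _ := by
        field_simp

theorem cf_bound {r₀ c : ℝ} (h0 : 0 < r₀) (hc : 0 < c) {Φ : ℂ → ℂ} (hΦ : ContinuousOn Φ (sphere 0 r₀))
    (hext : r₀ < c → ∃ Ψ : ℂ → ℂ, EqOn Φ Ψ (sphere 0 r₀) ∧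
      ∀ z ∈ closedBall (0 : ℂ) c, DifferentiableAt ℂ Ψ z) :
    ∃ C : ℝ, 0 ≤ C ∧ ∀ n, ‖cf r₀ n Φ‖ ≤ C * c⁻¹ ^ n := by
  rcases le_or_gt c r₀ with h | h
  · obtain ⟨C, hC⟩ := (isCompact_sphere (0 : ℂ) r₀).exists_bound_of_continuousOn hΦ
    refine ⟨max C 0, le_max_right _ _, ?_⟩
    intro n
    refine (cf_norm_le h0 n (C := max C 0) (fun z hz => (hC z hz).trans (le_max_left _ _))).trans ?_
    apply mul_le_mul_of_nonneg_left _ (le_max_right _ _)
    apply pow_le_pow_left₀ (by positivity)
    exact inv_anti₀ hc h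
  · obtain ⟨Ψ, hΨ, hd⟩ := hext h
    have hcont : ContinuousOn Ψ (closedBall 0 c) := fun z hz => (hd z hz).continuousAt.continuousWithinAt
    obtain ⟨C, hC⟩ := (isCompact_closedBall (0 : ℂ) c).exists_bound_of_continuousOn hcont
    refine ⟨max C 0, le_max_right _ _, ?_⟩
    intro n
    rw [cf_congr h0.le hΨ, cf_move h0 h.le n (hcont.mono sdiff_subset)
      (fun z hz => hd z (ball_subset_closedBall hz.1))]
    exact cf_norm_le hc n (C := max C 0)
      (fun z hz => (hC z (sphere_subset_closedBall hz)).trans (le_max_left _ _))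

/-- partial products -/
noncomputable def dl (L : List ℂ) (l : ℕ) : ℂ[X] := ((L.take l).map (fun w => 1 - C w⁻¹ * X)).prod

theorem dl_natDegree (L : List ℂ) (l : ℕ) : (dl L l).natDegree ≤ l := by
  induction l generalizing L with
  | zero => simp [dl]
  | succ l ih =>
    cases L with
    | nil => simp [dl]
    | cons w L =>
      have : dl (w :: L) (l + 1) = (1 - C w⁻¹ * X) * dl L l := by simp [dl]
      rw [this]
      refine natDegree_mul_le.trans ?_
      have h1 : (1 - C w⁻¹ * X : ℂ[X]).natDegree ≤ 1 := by compute_degree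
      have h2 := ih L
      omega

theorem dl_coeff_zero (L : List ℂ) (l : ℕ) : (dl L l).coeff 0 = 1 := by
  induction l generalizing L with
  | zero => simp [dl]
  | succ l ih =>
    cases L with
    | nil => simp [dl]
    | cons w L =>
      have : dl (w :: L) (l + 1) = (1 - C w⁻¹ * X) * dl L l := by simp [dl]
      rw [this, mul_coeff_zero, ih L]
      simp

/-- product over a list -/
noncomputable def bll (L : List ℂ) (z : ℂ) : ℂ := (L.map (fun w => 1 - z / w)).prod

theorem dl_eval (L : List ℂ) (l : ℕ) (z : ℂ) : (dl L l).eval z = bll (L.take l) z := by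
  induction l generalizing L with
  | zero => simp [dl, bll]
  | succ l ih =>
    cases L with
    | nil => simp [dl, bll]
    | cons w L =>
      have : dl (w :: L) (l + 1) = (1 - C w⁻¹ * X) * dl L l := by simp [dl]
      rw [this, eval_mul, ih L]
      simp [bll, div_eq_inv_mul]

theorem bll_split (L : List ℂ) (l : ℕ) (z : ℂ) : bll L z = bll (L.take l) z * bll (L.drop l) z := by
  unfold bll
  rw [← List.prod_append, ← List.map_append, List.take_append_drop]

theorem bll_differentiable (L : List ℂ) : Differentiable ℂ (bll L) := by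
  induction L with
  | nil =>
    have : bll [] = fun _ => 1 := by
      funext z
      simp [bll]
    rw [this]
    exact differentiable_const _
  | cons w L ih =>
    have : bll (w :: L) = fun z => (1 - z / w) * bll L z := by
      funext z
      simp [bll]
    rw [this]
    exact Differentiable.mul (by fun_prop) ih

/-- radii -/
noncomputable def rad (r : ℝ) (L : List ℂ) (l : ℕ) : ℝ := (L.map (fun w => ‖w‖)).getD l r

theorem rad_pos {r : ℝ} (hr : 0 < r) (L : List ℂ) (hL : ∀ w ∈ L, w ≠ 0 ∧ ‖w‖ < r) (l : ℕ) :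
    0 < rad r L l ∧ rad r L l ≤ r := by
  induction l generalizing L with
  | zero =>
    cases L with
    | nil => simp [rad, hr]
    | cons w L =>
      have := hL w (by simp)
      simp only [rad, List.map_cons, List.getD_cons_zero, norm_pos_iff]
      exact ⟨this.1, this.2.le⟩
  | succ l ih =>
    cases L with
    | nil => simp [rad, hr]
    | cons w L =>
      have := ih L (fun v hv => hL v (by simp [hv]))
      simpa [rad] using this

theorem rad_le_of_mem_drop {r : ℝ} (L : List ℂ) (hs : L.Pairwise (fun v w => ‖v‖ ≤ ‖w‖)) (l : ℕ)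
    (w : ℂ) (hw : w ∈ L.drop l) : rad r L l ≤ ‖w‖ := by
  induction l generalizing L with
  | zero =>
    cases L with
    | nil => simp at hw
    | cons v L =>
      simp only [rad, List.map_cons, List.getD_cons_zero]
      rw [List.drop_zero, List.mem_cons] at hw
      rcases hw with rfl | hw
      · exact le_refl _
      · exact List.rel_of_pairwise_cons hs hw
  | succ l ih =>
    cases L with
    | nil => simp at hw
    | cons v L =>
      have := ih L (List.Pairwise.of_cons hs) (by simpa using hw)
      simpa [rad] using this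

theorem rad_sum_le {r : ℝ} (hr : 0 < r) (L : List ℂ) (hL : ∀ w ∈ L, w ≠ 0 ∧ ‖w‖ < r) (m : ℕ) :
    ∑ l ∈ Finset.range m, Real.log (r / rad r L l) ≤ (L.map (fun w => Real.log (r / ‖w‖))).sum := by
  have hnn : ∀ (L : List ℂ), (∀ w ∈ L, w ≠ 0 ∧ ‖w‖ < r) → 0 ≤ (L.map (fun w => Real.log (r / ‖w‖))).sum := by
    intro L hL
    apply List.sum_nonneg
    intro x hx
    obtain ⟨w, hw, rfl⟩ := List.mem_map.1 hx
    apply Real.log_nonneg
    rw [le_div_iff₀ (norm_pos_iff.2 (hL w hw).1), one_mul]
    exact (hL w hw).2.le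
  induction m generalizing L with
  | zero =>
    rw [Finset.range_zero, Finset.sum_empty]
    exact hnn L hL
  | succ m ih =>
    cases L with
    | nil =>
      have : ∀ l, rad r [] l = r := by
        intro l
        simp [rad]
      simp [this, hr.ne']
    | cons w L =>
      rw [Finset.sum_range_succ']
      have h1 : ∀ l, rad r (w :: L) (l + 1) = rad r L l := by
        intro l
        simp [rad]
      have h2 : rad r (w :: L) 0 = ‖w‖ := by simp [rad]
      simp only [h1, h2, List.map_cons, List.sum_cons]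
      have := ih L (fun v hv => hL v (by simp [hv]))
      linarith

end Pool.Agent.Helper87.Cov
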