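import Pool.Agent.Helper87.Cov.Circle

/-!
# Pointwise upper bound on the circle
-/

open MeasureTheory Set Filter Topology Complex Metric Polynomial

namespace Pool.Agent.Helper87.Cov

theorem bll_ne_zero {L : List ℂ} {z : ℂ} (h : ∀ w ∈ L, ‖z‖ < ‖w‖) : bll L z ≠ 0 := by
  unfold bll
  rw [Ne, List.prod_eq_zero_iff]
  intro h0
  obtain ⟨w, hw, h1⟩ := List.mem_map.1 h0
  have h2 := h w hw
  have hw0 : w ≠ 0 := by
    rintro rfl
    rw [norm_zero] at h2
    linarith [norm_nonneg z]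
  have : z = w := by
    field_simp at h1
    linear_combination -h1
  rw [this] at h2
  exact lt_irrefl _ h2

theorem inv_pow_shift {c : ℝ} (hc : 0 < c) {m k a : ℕ} (ha : a ≤ 2 * m) :
    c⁻¹ ^ (k + a) ≤ (max 1 c⁻¹) ^ (2 * m) * c⁻¹ ^ k := by
  rw [pow_add, mul_comm]
  apply mul_le_mul_of_nonneg_right _ (by positivity)
  calc c⁻¹ ^ a ≤ (max 1 c⁻¹) ^ a := pow_le_pow_left₀ (by positivity) (le_max_right _ _) _
    _ ≤ (max 1 c⁻¹) ^ (2 * m) := pow_le_pow_right₀ (le_max_left _ _) ha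

theorem circle_limsup {r₀ r : ℝ} (h0 : 0 < r₀) (h0r : r₀ < r) (m : ℕ) {D G₁ G₂ E : ℂ → ℂ}
    (hD : Differentiable ℂ D) (hG₁ : Differentiable ℂ G₁) (hG₂ : Differentiable ℂ G₂)
    (hne : ∀ z ∈ closedBall (0 : ℂ) r₀, G₂ z ≠ 0)
    (L : List ℂ) (hs : L.Pairwise (fun v w => ‖v‖ ≤ ‖w‖)) (hL : ∀ w ∈ L, w ≠ 0 ∧ ‖w‖ < r)
    (hE : DifferentiableOn ℂ E (ball 0 r)) (hEq : ∀ z ∈ ball (0 : ℂ) r, bll L z * G₁ z = E z * G₂ z)
    {ε : ℝ} (hε : 0 < ε) :
    ∀ᶠ k : ℕ in atTop, (1 / k : ℝ) * Real.posLog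
      ‖((r : ℂ) ^ (k * m)) * (hkM r₀ m k (fun z => D z * (G₁ z / G₂ z))).det‖ ≤
        (L.map (fun w => Real.log (r / ‖w‖))).sum + ε := by
  have hr : 0 < r := h0.trans h0r
  set F : ℂ → ℂ := fun z => D z * (G₁ z / G₂ z) with hF
  have hFc : ContinuousOn F (sphere 0 r₀) := by
    apply ContinuousOn.mul hD.continuous.continuousOn
    apply ContinuousOn.div hG₁.continuous.continuousOn hG₂.continuous.continuousOn
    exact fun z hz => hne z (sphere_subset_closedBall hz)
  set δ : ℝ := ε / (2 * (m + 1)) with hδ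
  have hδ0 : 0 < δ := by positivity
  set c : ℕ → ℝ := fun l => rad r L l * Real.exp (-δ) with hc
  have hc0 : ∀ l, 0 < c l ∧ c l < rad r L l := by
    intro l
    have h1 := (rad_pos hr L hL l).1
    refine ⟨by positivity, ?_⟩
    have : Real.exp (-δ) < 1 := by
      rw [Real.exp_lt_one_iff]
      linarith
    simp only [hc]
    nlinarith
  have hcr : ∀ l, c l < r := fun l => (hc0 l).2.trans_le (rad_pos hr L hL l).2
  have hΦ : ∀ l : ℕ, ContinuousOn (fun z => (dl L l).eval z * F z) (sphere 0 r₀) := by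
    intro l
    exact ContinuousOn.mul (by fun_prop) hFc
  have hbound : ∀ l : ℕ, ∃ C : ℝ, 0 ≤ C ∧ ∀ n, ‖cf r₀ n (fun z => (dl L l).eval z * F z)‖ ≤ C * (c l)⁻¹ ^ n := by
    intro l
    apply cf_bound h0 (hc0 l).1 (hΦ l)
    intro hlt
    refine ⟨fun z => D z * (E z / bll (L.drop l) z), ?_, ?_⟩
    · intro z hz
      have hzr : ‖z‖ = r₀ := by simpa using hz
      have hzb : z ∈ ball (0 : ℂ) r := by
        rw [mem_ball_zero_iff, hzr]
        exact h0r
      have h2 : G₂ z ≠ 0 := hne z (sphere_subset_closedBall hz)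
      have h3 : bll (L.drop l) z ≠ 0 := by
        apply bll_ne_zero
        intro w hw
        rw [hzr]
        exact hlt.trans ((hc0 l).2.trans_le (rad_le_of_mem_drop L hs l w hw))
      simp only [hF]
      rw [dl_eval]
      have h4 := hEq z hzb
      rw [bll_split L l z] at h4
      field_simp
      linear_combination (D z) * h4
    · intro z hz
      have hz' : ‖z‖ ≤ c l := by simpa using hz
      have hzb : z ∈ ball (0 : ℂ) r := by
        rw [mem_ball_zero_iff]
        exact hz'.trans_lt (hcr l)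
      apply DifferentiableAt.mul (hD z)
      apply DifferentiableAt.fun_div (hE.differentiableAt (isOpen_ball.mem_nhds hzb))
        (bll_differentiable _ z)
      apply bll_ne_zero
      intro w hw
      exact hz'.trans_lt ((hc0 l).2.trans_le (rad_le_of_mem_drop L hs l w hw))
  choose C hC0 hC using hbound
  set A : ℝ := ∑ l ∈ Finset.range m, C l * (max 1 (c l)⁻¹) ^ (2 * m) with hA
  have hmain : ∀ k : ℕ, 1 ≤ k → (1 / k : ℝ) * Real.posLog
      ‖((r : ℂ) ^ (k * m)) * (hkM r₀ m k F).det‖ ≤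
        (1 / k : ℝ) * Real.posLog (m.factorial * A ^ m) + ((L.map (fun w => Real.log (r / ‖w‖))).sum + ε / 2) := by
    intro k hk
    rw [det_column h0 m k hFc (dl L) (dl_natDegree L) (dl_coeff_zero L)]
    refine (posLog_det_le hk hr (A := A) _ c (fun l _ => ⟨(hc0 l).1, (hcr l).le⟩) ?_).trans ?_
    · intro i l
      rw [Matrix.of_apply]
      refine (hC l _).trans ?_
      have h1 : (c l)⁻¹ ^ (k + (i : ℕ) + l) ≤ (max 1 (c l)⁻¹) ^ (2 * m) * (c l)⁻¹ ^ k := by
        rw [add_assoc]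
        exact inv_pow_shift (hc0 l).1 (by omega)
      calc C l * (c l)⁻¹ ^ (k + (i : ℕ) + l) ≤ C l * ((max 1 (c l)⁻¹) ^ (2 * m) * (c l)⁻¹ ^ k) :=
            mul_le_mul_of_nonneg_left h1 (hC0 l)
        _ = (C l * (max 1 (c l)⁻¹) ^ (2 * m)) * (c l)⁻¹ ^ k := by ring
        _ ≤ A * (c l)⁻¹ ^ k := by
            apply mul_le_mul_of_nonneg_right _ (by have := (hc0 l).1; positivity)
            rw [hA]
            refine Finset.single_le_sum (f := fun l => C l * (max 1 (c l)⁻¹) ^ (2 * m)) ?_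
              (Finset.mem_range.2 l.2)
            intro l _
            have := hC0 l
            positivity
    · have h1 : ∑ l ∈ Finset.range m, Real.log (r / c l) =
          ∑ l ∈ Finset.range m, Real.log (r / rad r L l) + m * δ := by
        have : ∀ l ∈ Finset.range m, Real.log (r / c l) = Real.log (r / rad r L l) + δ := by
          intro l _
          have hrad := (rad_pos hr L hL l).1
          simp only [hc]
          rw [Real.log_div hr.ne' (by positivity), Real.log_div hr.ne' hrad.ne',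
            Real.log_mul hrad.ne' (by positivity), Real.log_exp]
          ring
        rw [Finset.sum_congr rfl this, Finset.sum_add_distrib, Finset.sum_const, Finset.card_range,
          nsmul_eq_mul]
      have h2 := rad_sum_le hr L hL m
      have h3 : (m : ℝ) * δ ≤ ε / 2 := by
        rw [hδ]
        rw [← mul_div_assoc, div_le_div_iff₀ (by positivity) (by positivity)]
        nlinarith
      linarith
  have hlim : Tendsto (fun k : ℕ => (1 / k : ℝ) * Real.posLog (m.factorial * A ^ m)) atTop (𝓝 0) := by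
    have := (tendsto_one_div_atTop_nhds_zero_nat (𝕜 := ℝ)).mul_const (Real.posLog (m.factorial * A ^ m))
    rwa [zero_mul] at this
  filter_upwards [hlim.eventually (gt_mem_nhds (show (0 : ℝ) < ε / 2 by positivity)), eventually_ge_atTop 1]
    with k hk1 hk2
  have := hmain k hk2
  linarith

/-- uniform bound -/
theorem posLog_uniform {r₀ r : ℝ} (h0 : 0 < r₀) (h0r : r₀ < r) (m : ℕ) {M : ℝ} (hM : 0 ≤ M)
    {F : ℂ → ℂ} (hF : ∀ z ∈ sphere (0 : ℂ) r₀, ‖F z‖ ≤ M) {k : ℕ} (hk : 1 ≤ k) :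
    (1 / k : ℝ) * Real.posLog ‖((r : ℂ) ^ (k * m)) * (hkM r₀ m k F).det‖ ≤
      Real.posLog (m.factorial * (M * (max 1 r₀⁻¹) ^ (2 * m)) ^ m) + m * Real.log (r / r₀) := by
  have hr : 0 < r := h0.trans h0r
  refine (posLog_det_le hk hr (A := M * (max 1 r₀⁻¹) ^ (2 * m)) _ (fun _ => r₀)
    (fun l _ => ⟨h0, h0r.le⟩) ?_).trans ?_
  · intro i l
    rw [hkM, Matrix.of_apply]
    refine (cf_norm_le h0 _ hF).trans ?_
    rw [mul_assoc, add_assoc]
    apply mul_le_mul_of_nonneg_left _ hM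
    exact inv_pow_shift h0 (by omega)
  · rw [Finset.sum_const, Finset.card_range, nsmul_eq_mul]
    have h1 : (1 / k : ℝ) ≤ 1 := by
      rw [div_le_one (by exact_mod_cast hk)]
      exact_mod_cast hk
    have h2 := Real.posLog_nonneg (x := (m.factorial * (M * (max 1 r₀⁻¹) ^ (2 * m)) ^ m : ℝ))
    nlinarith

end Pool.Agent.Helper87.Cov
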