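import Mathlib

/-!
# Normalised contour integrals (Taylor coefficients)
-/

open MeasureTheory Set Filter Topology Complex Metric

namespace Pool.Agent.Helper87.Cov

/-- `n`-th Taylor coefficient at `0`, as a contour integral over `|z| = R`. -/
noncomputable def cf (R : ℝ) (n : ℕ) (f : ℂ → ℂ) : ℂ :=
  (2 * Real.pi * I : ℂ)⁻¹ * ∮ z in C(0, R), z⁻¹ ^ (n + 1) * f z

theorem cf_congr {R : ℝ} (hR : 0 ≤ R) {n : ℕ} {f g : ℂ → ℂ} (h : EqOn f g (sphere 0 R)) :
    cf R n f = cf R n g := by
  unfold cf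
  congr 1
  apply circleIntegral.integral_congr hR
  intro z hz
  simp only
  rw [h hz]

theorem ne_zero_of_mem_sphere' {R : ℝ} (hR : 0 < R) {z : ℂ} (hz : z ∈ sphere (0 : ℂ) R) : z ≠ 0 := by
  intro h
  rw [h] at hz
  simp at hz
  linarith

theorem cf_continuousOn {R : ℝ} (hR : 0 < R) (n : ℕ) {f : ℂ → ℂ} (hf : ContinuousOn f (sphere 0 R)) :
    ContinuousOn (fun z => z⁻¹ ^ (n + 1) * f z) (sphere 0 R) := by
  apply ContinuousOn.mul _ hf
  apply ContinuousOn.pow
  apply ContinuousOn.inv₀ continuousOn_id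
  intro z hz
  exact ne_zero_of_mem_sphere' hR hz

theorem cf_integrable {R : ℝ} (hR : 0 < R) (n : ℕ) {f : ℂ → ℂ} (hf : ContinuousOn f (sphere 0 R)) :
    CircleIntegrable (fun z => z⁻¹ ^ (n + 1) * f z) 0 R :=
  (cf_continuousOn hR n hf).circleIntegrable hR.le

theorem cf_sum {ι : Type*} {R : ℝ} (hR : 0 < R) (n : ℕ) (s : Finset ι) {f : ι → ℂ → ℂ}
    (hf : ∀ i ∈ s, ContinuousOn (f i) (sphere 0 R)) :
    cf R n (fun z => ∑ i ∈ s, f i z) = ∑ i ∈ s, cf R n (f i) := by
  unfold cf
  rw [← Finset.mul_sum]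
  congr 1
  rw [← circleIntegral.integral_fun_sum]
  · apply circleIntegral.integral_congr hR.le
    intro z _
    simp only [Finset.mul_sum]
  · intro i hi
    exact cf_integrable hR n (hf i hi)

theorem cf_add {R : ℝ} (hR : 0 < R) (n : ℕ) {f g : ℂ → ℂ}
    (hf : ContinuousOn f (sphere 0 R)) (hg : ContinuousOn g (sphere 0 R)) :
    cf R n (fun z => f z + g z) = cf R n f + cf R n g := by
  unfold cf
  rw [← mul_add]
  congr 1
  rw [← circleIntegral.integral_add (cf_integrable hR n hf) (cf_integrable hR n hg)]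
  apply circleIntegral.integral_congr hR.le
  intro z _
  simp only [mul_add]

theorem cf_const_mul (R : ℝ) (n : ℕ) (a : ℂ) (f : ℂ → ℂ) :
    cf R n (fun z => a * f z) = a * cf R n f := by
  unfold cf
  rw [mul_left_comm]
  congr 1
  rw [← circleIntegral.integral_const_mul]
  congr 1
  funext z
  ring

theorem cf_pow_mul {R : ℝ} (hR : 0 < R) {n a : ℕ} (h : a ≤ n) (f : ℂ → ℂ) :
    cf R n (fun z => z ^ a * f z) = cf R (n - a) f := by
  unfold cf
  congr 1
  apply circleIntegral.integral_congr hR.le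
  intro z hz
  have hz0 : z ≠ 0 := ne_zero_of_mem_sphere' hR hz
  simp only
  obtain ⟨b, rfl⟩ := Nat.exists_eq_add_of_le h
  have : a + b - a = b := by omega
  rw [this, ← mul_assoc]
  congr 1
  rw [show a + b + 1 = (b + 1) + a by omega, pow_add, mul_assoc, ← mul_pow, inv_mul_cancel₀ hz0,
    one_pow, mul_one]

theorem cf_norm_le {R C : ℝ} (hR : 0 < R) (n : ℕ) {f : ℂ → ℂ}
    (hf : ∀ z ∈ sphere (0 : ℂ) R, ‖f z‖ ≤ C) : ‖cf R n f‖ ≤ C * R⁻¹ ^ n := by
  unfold cf
  rw [← smul_eq_mul]
  refine (circleIntegral.norm_two_pi_i_inv_smul_integral_le_of_norm_le_const hR.le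
    (C := R⁻¹ ^ (n + 1) * C) ?_).trans (le_of_eq ?_)
  · intro z hz
    have h1 : ‖z‖ = R := by simpa using hz
    rw [norm_mul, norm_pow, norm_inv, h1]
    exact mul_le_mul_of_nonneg_left (hf z hz) (by positivity)
  · rw [pow_succ]
    field_simp

theorem cf_move {R₁ R₂ : ℝ} (h0 : 0 < R₁) (h12 : R₁ ≤ R₂) (n : ℕ) {f : ℂ → ℂ}
    (hc : ContinuousOn f (closedBall 0 R₂ \ ball 0 R₁))
    (hd : ∀ z ∈ ball (0 : ℂ) R₂ \ closedBall 0 R₁, DifferentiableAt ℂ f z) :
    cf R₁ n f = cf R₂ n f := by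
  unfold cf
  congr 1
  have hne : ∀ z ∈ closedBall (0 : ℂ) R₂ \ ball 0 R₁, z ≠ 0 := by
    rintro z ⟨_, hz⟩ rfl
    exact hz (mem_ball_self h0)
  have key := circleIntegral_sub_center_inv_smul_eq_of_differentiable_on_annulus_off_countable
    (c := 0) h0 h12 (f := fun z => z⁻¹ ^ n * f z) (s := ∅) countable_empty
    (by
      apply ContinuousOn.mul _ hc
      apply ContinuousOn.pow
      apply ContinuousOn.inv₀ continuousOn_id
      exact hne)
    (by
      intro z hz
      have hz' : z ∈ ball (0 : ℂ) R₂ \ closedBall 0 R₁ := hz.1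
      have hz0 : z ≠ 0 := hne z ⟨ball_subset_closedBall hz'.1, fun h => hz'.2 (ball_subset_closedBall h)⟩
      apply DifferentiableAt.mul _ (hd z hz')
      apply DifferentiableAt.pow
      exact differentiableAt_inv hz0)
  simp only [sub_zero, smul_eq_mul, ← mul_assoc, ← pow_succ'] at key
  exact key.symm

theorem cf_zero {R : ℝ} (hR : 0 < R) {f : ℂ → ℂ} (hf : DiffContOnCl ℂ f (ball 0 R)) :
    cf R 0 f = f 0 := by
  have := hf.two_pi_i_inv_smul_circleIntegral_sub_inv_smul (w := 0) (mem_ball_self hR)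
  simp only [sub_zero, smul_eq_mul] at this
  unfold cf
  simpa using this

theorem cf_one_succ {R : ℝ} (hR : 0 < R) (n : ℕ) : cf R (n + 1) (fun _ => 1) = 0 := by
  unfold cf
  have := circleIntegral.integral_sub_zpow_of_ne (n := -((n : ℤ) + 2)) (by omega) 0 0 R
  have h2 : (∮ z in C(0, R), z⁻¹ ^ (n + 1 + 1) * 1) = ∮ z in C(0, R), (z - 0) ^ (-((n : ℤ) + 2)) := by
    apply circleIntegral.integral_congr hR.le
    intro z hz
    simp only [mul_one, sub_zero, inv_pow, zpow_neg]
    congr 1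
  rw [h2, this, mul_zero]

/-- the coefficients of a simple pole -/
theorem cf_pole {R : ℝ} (hR : 0 < R) {w : ℂ} (hw : R < ‖w‖) (n : ℕ) :
    cf R n (fun z => (1 - z / w)⁻¹) = w⁻¹ ^ n := by
  have hw0 : w ≠ 0 := by
    intro h
    rw [h, norm_zero] at hw
    linarith
  have hne : ∀ z ∈ closedBall (0 : ℂ) R, 1 - z / w ≠ 0 := by
    intro z hz h
    have h1 : z = w := by
      field_simp at h
      linear_combination -h
    rw [h1, mem_closedBall_zero_iff] at hz
    linarith
  have hc : ContinuousOn (fun z : ℂ => (1 - z / w)⁻¹) (closedBall 0 R) := by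
    apply ContinuousOn.inv₀ _ hne
    fun_prop
  have hcs : ContinuousOn (fun z : ℂ => (1 - z / w)⁻¹) (sphere 0 R) :=
    hc.mono sphere_subset_closedBall
  induction n with
  | zero =>
    rw [cf_zero hR]
    · simp
    · constructor
      · intro z hz
        apply DifferentiableAt.differentiableWithinAt
        exact DifferentiableAt.fun_inv (by fun_prop) (hne z (ball_subset_closedBall hz))
      · rw [closure_ball _ hR.ne']
        exact hc
  | succ n ih =>
    have h1 : cf R (n + 1) (fun z => (1 - z / w)⁻¹) =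
        cf R (n + 1) (fun z => 1 + w⁻¹ * (z ^ 1 * (1 - z / w)⁻¹)) := by
      apply cf_congr hR.le
      intro z hz
      have := hne z (sphere_subset_closedBall hz)
      have h2 : (1 - z / w) * (1 - z / w)⁻¹ = 1 := mul_inv_cancel₀ this
      simp only [pow_one]
      linear_combination h2
    rw [h1, cf_add hR, cf_one_succ hR, cf_const_mul, cf_pow_mul hR (by omega), Nat.add_sub_cancel, ih,
      zero_add, pow_succ']
    · exact continuousOn_const
    · apply ContinuousOn.mul continuousOn_const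
      exact ContinuousOn.mul (continuousOn_id.pow 1) hcs

end Pool.Agent.Helper87.Cov
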