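import Pool.Agent.Helper87.Cov.Coef

/-!
# Hankel determinants of contour integrals
-/

open MeasureTheory Set Filter Topology Complex Metric Polynomial

namespace Pool.Agent.Helper87.Cov

/-- Hankel matrix -/
noncomputable def hkM (R : ℝ) (m k : ℕ) (F : ℂ → ℂ) : Matrix (Fin m) (Fin m) ℂ :=
  Matrix.of fun i j : Fin m => cf R (k + i + j) F

/-- `cf` of a polynomial multiple -/
theorem cf_poly_mul {R : ℝ} (hR : 0 < R) {F : ℂ → ℂ} (hF : ContinuousOn F (sphere 0 R)) (p : ℂ[X])
    {l n : ℕ} (hp : p.natDegree ≤ l) (hn : l ≤ n) :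
    cf R n (fun z => p.eval z * F z) = ∑ a ∈ Finset.range (l + 1), p.coeff a * cf R (n - a) F := by
  have h1 : cf R n (fun z => p.eval z * F z) =
      cf R n (fun z => ∑ a ∈ Finset.range (l + 1), p.coeff a * (z ^ a * F z)) := by
    congr 1
    funext z
    rw [Polynomial.eval_eq_sum_range' (Nat.lt_succ_of_le hp), Finset.sum_mul]
    apply Finset.sum_congr rfl
    intro a _
    ring
  rw [h1, cf_sum hR]
  · apply Finset.sum_congr rfl
    intro a ha
    rw [cf_const_mul, cf_pow_mul hR]
    rw [Finset.mem_range] at ha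
    omega
  · intro a _
    apply ContinuousOn.mul continuousOn_const
    exact (continuousOn_id.pow a).mul hF

theorem det_column {R : ℝ} (hR : 0 < R) (m k : ℕ) {F : ℂ → ℂ} (hF : ContinuousOn F (sphere 0 R))
    (d : ℕ → ℂ[X]) (hd : ∀ l, (d l).natDegree ≤ l) (hd0 : ∀ l, (d l).coeff 0 = 1) :
    (hkM R m k F).det =
      (Matrix.of fun i l : Fin m => cf R (k + i + l) (fun z => (d l).eval z * F z)).det := by
  set T : Matrix (Fin m) (Fin m) ℂ :=
    Matrix.of fun j l : Fin m => if (j : ℕ) ≤ (l : ℕ) then (d l).coeff ((l : ℕ) - (j : ℕ)) else 0 with hT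
  have hdetT : T.det = 1 := by
    rw [Matrix.det_of_isUpperTriangular]
    · apply Finset.prod_eq_one
      intro i _
      simp [hT, hd0]
    · intro i j hij
      have : ¬ ((i : ℕ) ≤ (j : ℕ)) := by
        simp only [id] at hij
        omega
      simp only [hT, Matrix.of_apply, if_neg this]
  have hmul : (hkM R m k F) * T =
      Matrix.of fun i l : Fin m => cf R (k + i + l) (fun z => (d l).eval z * F z) := by
    ext i l
    rw [Matrix.mul_apply, Matrix.of_apply, cf_poly_mul hR hF (d l) (hd l) (by omega)]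
    simp only [hkM, hT, Matrix.of_apply]
    rw [Fin.sum_univ_eq_sum_range (fun j => cf R (k + i + j) F *
      (if j ≤ (l : ℕ) then (d l).coeff ((l : ℕ) - j) else 0)) m]
    have hsub : Finset.range ((l : ℕ) + 1) ⊆ Finset.range m := by
      intro x hx
      rw [Finset.mem_range] at hx ⊢
      omega
    rw [← Finset.sum_subset hsub]
    · rw [← Finset.sum_range_reflect (fun a => (d l).coeff a * cf R (k + i + l - a) F)]
      apply Finset.sum_congr rfl
      intro a ha
      rw [Finset.mem_range] at ha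
      rw [if_pos (by omega), mul_comm]
      have h1 : (l : ℕ) + 1 - 1 - a = (l : ℕ) - a := by omega
      have h2 : k + (i : ℕ) + l - (l + 1 - 1 - a) = k + i + a := by omega
      rw [h2, h1]
    · intro x _ hx
      rw [Finset.mem_range] at hx
      rw [if_neg (by omega), mul_zero]
  rw [← hmul, Matrix.det_mul, hdetT, mul_one]

/-- two-sided transformation -/
theorem det_two_sided {R : ℝ} (hR : 0 < R) (m : ℕ) {F : ℂ → ℂ} (hF : ContinuousOn F (sphere 0 R))
    (P : Fin m → ℂ[X]) (hP : ∀ l, (P l).natDegree < m) :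
    ∃ c : ℂ, ∀ k : ℕ, c * (hkM R m k F).det =
      (Matrix.of fun i l : Fin m => cf R (k + 2 * (m - 1))
        (fun z => (P i).eval z * (P l).eval z * F z)).det := by
  set V : Matrix (Fin m) (Fin m) ℂ := Matrix.of fun j a : Fin m => (P j).coeff (m - 1 - a) with hV
  refine ⟨V.det * V.det, ?_⟩
  intro k
  have hm : V * (hkM R m k F) * V.transpose = Matrix.of fun i l : Fin m => cf R (k + 2 * (m - 1))
        (fun z => (P i).eval z * (P l).eval z * F z) := by
    ext i l
    have hev : ∀ (j : Fin m) (z : ℂ), (P j).eval z = ∑ a : Fin m, (P j).coeff (m - 1 - a) * z ^ (m - 1 - (a : ℕ)) := by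
      intro j z
      rw [Polynomial.eval_eq_sum_range' (hP j), ← Finset.sum_range_reflect,
        ← Fin.sum_univ_eq_sum_range (fun a => (P j).coeff (m - 1 - a) * z ^ (m - 1 - (a : ℕ)))]
    have h1 : cf R (k + 2 * (m - 1)) (fun z => (P i).eval z * (P l).eval z * F z) =
        cf R (k + 2 * (m - 1)) (fun z => ∑ b : Fin m, ∑ a : Fin m,
          ((P i).coeff (m - 1 - a) * (P l).coeff (m - 1 - b)) *
            (z ^ ((m - 1 - (a : ℕ)) + (m - 1 - (b : ℕ))) * F z)) := by
      congr 1
      funext z
      rw [hev i, hev l, Finset.mul_sum, Finset.sum_mul]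
      apply Finset.sum_congr rfl
      intro b _
      rw [Finset.sum_mul, Finset.sum_mul]
      apply Finset.sum_congr rfl
      intro a _
      rw [pow_add]
      ring
    have hcont : ∀ (a b : ℕ) (c : ℂ), ContinuousOn (fun z => c * (z ^ (a + b) * F z)) (sphere 0 R) := by
      intro a b c
      apply ContinuousOn.mul continuousOn_const
      exact (continuousOn_id.pow _).mul hF
    rw [Matrix.mul_apply, Matrix.of_apply, h1, cf_sum hR]
    · apply Finset.sum_congr rfl
      intro b _
      rw [Matrix.mul_apply, cf_sum hR, Finset.sum_mul]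
      · apply Finset.sum_congr rfl
        intro a _
        rw [cf_const_mul, cf_pow_mul hR (by omega)]
        simp only [hV, hkM, Matrix.of_apply, Matrix.transpose_apply]
        have ha := a.2
        have hb := b.2
        have : k + 2 * (m - 1) - (m - 1 - (a : ℕ) + (m - 1 - (b : ℕ))) = k + a + b := by omega
        rw [this]
        ring
      · intro a _
        exact hcont _ _ _
    · intro b _
      apply continuousOn_finsetSum
      intro a _
      exact hcont _ _ _
  rw [← hm, Matrix.det_mul, Matrix.det_mul, Matrix.det_transpose]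
  ring

theorem norm_det_le {m : ℕ} (M : Matrix (Fin m) (Fin m) ℂ) (b : Fin m → ℝ)
    (h : ∀ i l, ‖M i l‖ ≤ b l) : ‖M.det‖ ≤ m.factorial * ∏ l, b l := by
  rw [Matrix.det_apply]
  refine (norm_sum_le _ _).trans ?_
  have : ∀ σ ∈ (Finset.univ : Finset (Equiv.Perm (Fin m))),
      ‖Equiv.Perm.sign σ • ∏ i, M (σ i) i‖ ≤ ∏ l, b l := by
    intro σ _
    have h1 : ‖Equiv.Perm.sign σ • ∏ i, M (σ i) i‖ = ‖∏ i, M (σ i) i‖ := by
      rcases Int.units_eq_one_or (Equiv.Perm.sign σ) with h | h <;> simp [h]
    rw [h1, norm_prod]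
    exact Finset.prod_le_prod (fun _ _ => norm_nonneg _) (fun i _ => h _ _)
  refine (Finset.sum_le_card_nsmul _ _ _ this).trans (le_of_eq ?_)
  rw [Finset.card_univ, Fintype.card_perm, Fintype.card_fin, nsmul_eq_mul]

end Pool.Agent.Helper87.Cov
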